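import Pool.Agent.H2.VExt2

/-!
# Quadratic twists of products of elliptic curves over `k(X)`, over infinitely many extensions at once

Let `K = k(X)` with `k` a finite field of characteristic two. Every non-isotrivial elliptic curve over
`K` has an equation `y² + x y = x³ + a₀ x² + b` with `b` not constant, and its twist by the extension
generated by a root of `z² + z = a` is `y² + x y = x³ + (a₀ + a) x² + b`. We fix `a₀` and a finite set
`B` of nonconstant functions `b`, and order the quadratic extensions of `K` by the degree of their
conductor. The extensions more ramified than `a₀` and `B` at the places where `a₀` or some `b ∈ B` is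
bad form a positive proportion of all of them. For more than `28.8 %` of them, over every extension
`L = k'(X)` of `K` of odd degree (given by `X ↦ h`, with `h` a polynomial of odd degree and `[k' : k]`
odd) with only one place above each pole of `a₀ + a`, the twists of all the curves with `b ∈ B`,
whatever their number, simultaneously have finitely many points over `L` and, up to a Frobenius isogeny,
all their `2ˢ`-Selmer groups over `L` killed by two.
-/

namespace Pool.Agent.Results.MP_72e2e6_nt.AllTwistsOverExtensions

open Polynomial IsDedekindDomain Pool.Agent.H2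

theorem result {k : Type} [Field k] [Finite k] [CharP k 2] (a₀ : RatFunc k)
    (B : Finset (RatFunc k)) (hB : ∀ b ∈ B, ∀ c : k, b ≠ RatFunc.C c) :
    ((∀ a : RatFunc k, ∃! M : ℕ, ∃ a' ∈ asClass a, HalfCond a' M) ∧
    ∃ C M₀ : ℕ, ∀ M, M₀ ≤ M →
      (asClass '' {a : RatFunc k | HalfCond a M}).Finite ∧
      (asClass '' {a : RatFunc k | HalfCond a M}).ncard ≤
        C * (asClass '' {a : RatFunc k | HalfCond a M ∧ MoreRamified a₀ B a}).ncard ∧
      (asClass '' {a : RatFunc k | HalfCond a M ∧ MoreRamified a₀ B a}).Nonempty ∧
      288 * (asClass '' {a : RatFunc k | HalfCond a M ∧ MoreRamified a₀ B a}).ncard ≤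
        1000 * (asClass '' {a : RatFunc k | HalfCond a M ∧ MoreRamified a₀ B a ∧
          ∀ b, (∀ c : k, b ≠ RatFunc.C c) → (b ∈ B ∨ Adm (a₀ + a) b) →
            GoodOver (a₀ + a) b M}).ncard) ∧
    ∀ (k' : Type) [Field k'] [Finite k'] [Algebra k k'], Odd (Module.finrank k k') →
      ∃ Φ : RatFunc k →+* RatFunc k', Subst Φ X ∧ ∀ T : Finset (HeightOneSpectrum k[X]),
        (∀ p ∈ T, (gQ p).natDegree.Coprime (Module.finrank k k')) → OddExt T Φ X :=
  ⟨⟨halfCond_unique, more_prop_ext a₀ B hB⟩, fun k' _ _ _ hodd => const_ext k' hodd⟩

end Pool.Agent.Results.MP_72e2e6_nt.AllTwistsOverExtensions
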