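import Pool.Agent.H2.BCExamples

/-!
# Elliptic curves over `k(X)` with trivial `2`-primary Tate-Shafarevich group over all extensions
in an infinite class

Let `K = k(X)` with `k` a finite field of characteristic two, and let `b` be a nonconstant element of
`K`. The elliptic curves over `K` with `j`-invariant `1 / b` are the curves
`E_a : y² + x y = x³ + a x² + b`. For every finite set `S` of primes of `k[X]` outside of which `b`
is a unit, an explicit positive proportion of the classes of `a` which are ramified (sufficiently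
deeply) exactly at infinity and at the places in `S` contains an `a` such that over every extension
`L = k'(X)` of `K` in the class `OddExt S` the group of points is finite and, up to a Frobenius
isogeny, all `2ˢ`-Selmer groups are trivial.
-/

namespace Pool.Agent.Results.MP_72e2e6_nt.ShaOverExtensions

open Polynomial IsDedekindDomain Pool.Agent.H2

theorem result {k : Type} [Field k] [Finite k] [CharP k 2] (b : RatFunc k)
    (hb : ∀ c : k, b ≠ RatFunc.C c) (S : Finset (HeightOneSpectrum k[X]))
    (hS : ∀ p, p ∉ S → finAbv p b = 1) :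
    (∃ (β : RatFunc k) (r : ℕ), b = β ^ 2 ^ r ∧ 0 < S.card ∧
      ∃ M : ℕ, ∀ (m : ℕ) (n : HeightOneSpectrum k[X] → ℕ),
      M ≤ m → Odd m → (∀ p ∈ S, M ≤ n p ∧ Odd (n p)) →
      (asClass '' twists S m n).Finite ∧ (asClass '' twists S m n).Nonempty ∧
      S.card * (∏ i ∈ Finset.Ico 1 S.card, (2 ^ S.card - 2 ^ i)) *
          (asClass '' twists S m n).ncard ≤
        2 ^ (S.card ^ 2) * (asClass '' {a ∈ twists S m n |
          ∀ (k' : Type) [Field k'] [Finite k'] [Algebra k k'] (Φ : RatFunc k →+* RatFunc k')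
            (h : k'[X]), OddExt S Φ h →
          Finite (Pts (gcurve (Φ a) (Φ b)) (RatFunc k')) ∧
          Finite (Pts (gcurve (Φ a) (Φ β)) (RatFunc k')) ∧
          Odd (Nat.card (Pts (gcurve (Φ a) (Φ β)) (RatFunc k'))) ∧
          ∀ s : ℕ, Subsingleton (SelmerGroup (gcurve (Φ a) (Φ β)) (2 ^ s))}).ncard) ∧
    ∀ (k' : Type) [Field k'] [Finite k'] [Algebra k k'], Odd (Module.finrank k k') →
      ((∀ p ∈ S, (gQ p).natDegree.Coprime (Module.finrank k k')) →
        ∃ Φ : RatFunc k →+* RatFunc k', OddExt S Φ X) ∧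
      ((∀ p ∈ S, (X : k[X]) ∈ p.asIdeal) → ∀ d : ℕ, Odd d →
        ∃ Φ : RatFunc k →+* RatFunc k', OddExt S Φ (X ^ d)) := by
  refine ⟨ext_all b hb S hS, fun k' _ _ _ hn => ⟨fun hc => ?_, fun hX d hd => ?_⟩⟩
  · obtain ⟨Φ, hΦ⟩ := exists_subst (k := k) (X : k'[X]) (by rw [natDegree_X]; exact one_ne_zero)
    exact ⟨Φ, OddExt.const hΦ hn hc⟩
  · obtain ⟨Φ, hΦ⟩ := exists_subst (k := k) (X ^ d : k'[X]) (by
      rw [natDegree_X_pow]; exact hd.pos.ne')
    exact ⟨Φ, OddExt.kummer hΦ hn hd hX⟩

end Pool.Agent.Results.MP_72e2e6_nt.ShaOverExtensions
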